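import Mathlib
import Pool.Agent.H165R3.Birk

/-! A superadditive ergodic theorem for nonnegative, linearly bounded processes. -/

set_option autoImplicit false

namespace Pool.Agent.R975.King

open MeasureTheory Filter Topology Set

variable {X : Type*} [MeasurableSpace X] {m : Measure X} [IsProbabilityMeasure m]

section

variable {T : X → X} {L : ℕ → X → ℝ} {B : ℝ}

/-- covering lemma -/
lemma cover (h0 : ∀ n x, 0 ≤ L n x) (hs : ∀ k l x, L k x + L l (T^[k] x) ≤ L (k + l) x)
    {a : ℝ} (ha : 0 ≤ a) (N : ℕ) (G : X → Prop) [DecidablePred G]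
    (hG : ∀ x, G x → ∃ n, 1 ≤ n ∧ n ≤ N ∧ a * n ≤ L n x) :
    ∀ M x, a * (∑ j ∈ Finset.range M, if G (T^[j] x) then (1 : ℝ) else 0) ≤ L M x + a * N := by
  intro M
  induction M using Nat.strong_induction_on with
  | _ M ih =>
    intro x
    rcases le_or_gt M N with hMN | hMN
    · have h1 : (∑ j ∈ Finset.range M, if G (T^[j] x) then (1 : ℝ) else 0) ≤ N := by
        calc (∑ j ∈ Finset.range M, if G (T^[j] x) then (1 : ℝ) else 0)
            ≤ ∑ j ∈ Finset.range M, (1 : ℝ) := Finset.sum_le_sum fun j _ => by split_ifs <;> norm_num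
          _ = M := by simp
          _ ≤ N := by exact_mod_cast hMN
      have h2 := h0 M x
      nlinarith [mul_le_mul_of_nonneg_left h1 ha]
    · by_cases hx : G x
      · obtain ⟨n, hn1, hn2, hn3⟩ := hG x hx
        have hlt : M - n < M := by omega
        have h1 := ih (M - n) hlt (T^[n] x)
        have h2 := hs n (M - n) x
        have e : n + (M - n) = M := by omega
        rw [e] at h2
        have h3 : (∑ j ∈ Finset.range M, if G (T^[j] x) then (1 : ℝ) else 0)
            = (∑ j ∈ Finset.range n, if G (T^[j] x) then (1 : ℝ) else 0)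
              + ∑ j ∈ Finset.range (M - n), if G (T^[j] (T^[n] x)) then (1 : ℝ) else 0 := by
          conv_lhs => rw [← e]
          rw [Finset.sum_range_add]
          congr 1
          refine Finset.sum_congr rfl fun j _ => ?_
          rw [← Function.iterate_add_apply, add_comm n j]
        have h4 : (∑ j ∈ Finset.range n, if G (T^[j] x) then (1 : ℝ) else 0) ≤ n := by
          calc (∑ j ∈ Finset.range n, if G (T^[j] x) then (1 : ℝ) else 0)
              ≤ ∑ j ∈ Finset.range n, (1 : ℝ) :=
                Finset.sum_le_sum fun j _ => by split_ifs <;> norm_num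
            _ = n := by simp
        rw [h3, mul_add]
        have h5 := mul_le_mul_of_nonneg_left h4 ha
        linarith
      · obtain ⟨M', rfl⟩ : ∃ M', M = M' + 1 := ⟨M - 1, by omega⟩
        have h1 := ih M' (by omega) (T x)
        have h2 := hs 1 M' x
        have h20 := h0 1 x
        rw [Finset.sum_range_succ']
        rw [Function.iterate_one, add_comm 1 M'] at h2
        have e1 : (if G (T^[0] x) then (1 : ℝ) else 0) = 0 := by simp [hx]
        rw [e1, add_zero]
        simp only [Function.iterate_succ_apply]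
        exact h1.trans (by linarith)

theorem kingman (hT : Ergodic T m) (hTk : ∀ k, 1 ≤ k → Ergodic (T^[k]) m)
    (hL : ∀ n, Measurable (L n)) (h0 : ∀ n x, 0 ≤ L n x) (hB : ∀ n x, L n x ≤ B * n)
    (hs : ∀ k l x, L k x + L l (T^[k] x) ≤ L (k + l) x) :
    ∃ γ : ℝ, ∀ᵐ x ∂m, Tendsto (fun n : ℕ => L n x / n) atTop (𝓝 γ) := by
  have hB0 : 0 ≤ B := by
    obtain ⟨x⟩ : Nonempty X := nonempty_of_isProbabilityMeasure m
    have := (h0 1 x).trans (hB 1 x)
    simpa using this
  have hint : ∀ n, Integrable (L n) m := fun n =>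
    Integrable.of_bound (hL n).aestronglyMeasurable (B * n) (Eventually.of_forall fun x => by
      rw [Real.norm_eq_abs, abs_of_nonneg (h0 n x)]; exact hB n x)
  have hmono : ∀ k l x, k ≤ l → L k x ≤ L l x := by
    intro k l x hkl
    have h1 := hs k (l - k) x
    have h2 := h0 (l - k) (T^[k] x)
    rw [Nat.add_sub_cancel' hkl] at h1
    linarith
  set E : ℕ → ℝ := fun k => (∫ x, L k x ∂m) / k with hE
  have hEle : ∀ k, E k ≤ B := by
    intro k
    rcases Nat.eq_zero_or_pos k with rfl | hk
    · simp [hE, hB0]
    · have hk' : (0 : ℝ) < k := by exact_mod_cast hk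
      rw [hE]
      simp only
      rw [div_le_iff₀ hk']
      calc ∫ x, L k x ∂m ≤ ∫ _, B * k ∂m := integral_mono (hint k) (integrable_const _) (hB k)
        _ = B * k := by simp
  have hbdd : BddAbove (Set.range E) := ⟨B, by rintro _ ⟨k, rfl⟩; exact hEle k⟩
  set γ : ℝ := ⨆ k, E k with hγ
  have hEγ : ∀ k, E k ≤ γ := fun k => le_ciSup hbdd k
  have hγ0 : 0 ≤ γ := by
    have := hEγ 0
    simpa [hE] using this
  refine ⟨γ, ?_⟩
  -- lower bound
  have hlow : ∀ k, 1 ≤ k → ∀ᵐ x ∂m, ∀ ε > 0, ∀ᶠ n : ℕ in atTop, E k - ε ≤ L n x / n := by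
    intro k hk
    have hbk := H165R3.birkhoff (hTk k hk) (L k) (hL k) ⟨B * k, fun x => by
      rw [abs_of_nonneg (h0 k x)]; exact hB k x⟩
    filter_upwards [hbk] with x hx
    intro ε hε
    have hsum : ∀ j, ∑ i ∈ Finset.range j, L k ((T^[k])^[i] x) ≤ L (j * k) x := by
      intro j
      induction j with
      | zero => simpa using h0 0 x
      | succ j ih =>
        rw [Finset.sum_range_succ]
        have h1 := hs (j * k) k x
        have h2 : (T^[k])^[j] x = T^[j * k] x := by
          rw [← Function.iterate_mul, mul_comm]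
        rw [h2]
        have e : (j + 1) * k = j * k + k := by ring
        rw [e]
        linarith
    have hk' : (0 : ℝ) < k := by exact_mod_cast hk
    -- j = n / k
    have hdiv : Tendsto (fun n : ℕ => n / k) atTop atTop :=
      Nat.tendsto_div_const_atTop (by omega)
    have h1 := hx.comp hdiv
    have h2 : Tendsto (fun n : ℕ => ((n / k : ℕ) : ℝ) / n) atTop (𝓝 (1 / k)) := by
      have h3 : Tendsto (fun n : ℕ => 1 / (k : ℝ) - 1 / n) atTop (𝓝 (1 / k - 0)) :=
        tendsto_const_nhds.sub tendsto_one_div_atTop_nhds_zero_nat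
      rw [sub_zero] at h3
      refine tendsto_of_tendsto_of_tendsto_of_le_of_le' h3 tendsto_const_nhds ?_ ?_
      · filter_upwards [eventually_ge_atTop 1] with n hn
        have hn' : (0 : ℝ) < n := by exact_mod_cast hn
        have h4 : n < (n / k + 1) * k := by
          have := Nat.lt_div_mul_add (a := n) (b := k) (by omega)
          nlinarith
        have h5 : (n : ℝ) < ((n / k : ℕ) + 1) * k := by exact_mod_cast h4
        rw [le_div_iff₀ hn', sub_mul, one_div, one_div, inv_mul_cancel₀ hn'.ne']
        rw [← div_eq_inv_mul, sub_le_iff_le_add, div_le_iff₀ hk']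
        exact h5.le
      · filter_upwards [eventually_ge_atTop 1] with n hn
        have hn' : (0 : ℝ) < n := by exact_mod_cast hn
        have h4 : n / k * k ≤ n := Nat.div_mul_le_self n k
        have h5 : ((n / k : ℕ) : ℝ) * k ≤ n := by exact_mod_cast h4
        rw [div_le_div_iff₀ hn' hk']
        linarith
    have h6 := h2.mul h1
    have h7 : (1 / (k : ℝ)) * ∫ x, L k x ∂m = E k := by
      rw [hE]; simp only; ring
    rw [h7] at h6
    have h8 := h6.eventually (eventually_gt_nhds (show E k - ε < E k by linarith))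
    filter_upwards [h8, eventually_ge_atTop k] with n hn hnk
    refine hn.le.trans ?_
    have hn' : (0 : ℝ) < n := by exact_mod_cast (lt_of_lt_of_le (by omega) hnk)
    have hq : 0 < n / k := Nat.div_pos hnk (by omega)
    have hq' : (0 : ℝ) < ((n / k : ℕ) : ℝ) := by exact_mod_cast hq
    simp only [Function.comp]
    rw [div_mul_eq_mul_div, ← mul_assoc, mul_inv_cancel₀ hq'.ne', one_mul]
    refine div_le_div_of_nonneg_right ?_ hn'.le
    exact (hsum (n / k)).trans (hmono _ _ x (Nat.div_mul_le_self n k))
  have hup : ∀ a : ℝ, γ < a → ∀ᵐ x ∂m, ∀ᶠ n : ℕ in atTop, L n x / n ≤ a := by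
    intro a ha
    have ha0 : 0 < a := lt_of_le_of_lt hγ0 ha
    -- the set of bad points
    set A : Set X := {x | ∃ b : ℚ, a < b ∧ ∃ᶠ n : ℕ in atTop, (b : ℝ) * n ≤ L n x} with hA
    obtain ⟨a', ha'1, ha'2⟩ := exists_between ha
    set A : Set X := {x | ∃ b : ℚ, a' < b ∧ ∃ᶠ n : ℕ in atTop, (b : ℝ) * n ≤ L n x} with hA
    have ha'0 : 0 < a' := lt_of_le_of_lt hγ0 ha'1
    have hAm : MeasurableSet A := by
      have : A = ⋃ b : ℚ, ⋃ _ : a' < b, ⋂ N : ℕ, ⋃ n : ℕ, ⋃ _ : N ≤ n,
          {x | (b : ℝ) * n ≤ L n x} := by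
        ext x
        simp only [hA, mem_setOf_eq, mem_iUnion, mem_iInter, frequently_atTop, exists_prop]
      rw [this]
      refine MeasurableSet.iUnion fun b => MeasurableSet.iUnion fun _ =>
        MeasurableSet.iInter fun N => MeasurableSet.iUnion fun n => MeasurableSet.iUnion fun _ => ?_
      exact measurableSet_le measurable_const (hL n)
    have hAinv : T ⁻¹' A ⊆ A := by
      rintro x ⟨b, hb, hfr⟩
      obtain ⟨b', hb'1, hb'2⟩ := exists_rat_btwn hb
      have hb'2' : (b' : ℝ) < b := hb'2
      refine ⟨b', hb'1, ?_⟩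
      rw [frequently_atTop] at hfr ⊢
      intro N
      obtain ⟨K, hK⟩ := exists_nat_ge ((b : ℝ) / (b - b'))
      obtain ⟨n, hn, hn2⟩ := hfr (max N K)
      refine ⟨n + 1, by omega, ?_⟩
      have h1 := hs 1 n x
      have h2 := h0 1 x
      rw [Function.iterate_one, add_comm 1 n] at h1
      have h3 : (b : ℝ) / (b - b') ≤ n := hK.trans (by exact_mod_cast (le_max_right N K).trans hn)
      rw [div_le_iff₀ (by linarith)] at h3
      push_cast
      nlinarith
    rcases hT.ae_empty_or_univ_of_preimage_ae_le hAm.nullMeasurableSet hAinv.eventuallyLE with h | h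
    · -- almost no bad points
      have h1 : ∀ᵐ x ∂m, x ∉ A := by
        rw [ae_eq_empty] at h
        exact measure_eq_zero_iff_ae_notMem.mp h
      filter_upwards [h1] with x hx
      by_contra hcon
      apply hx
      obtain ⟨b, hb1, hb2⟩ := exists_rat_btwn ha'2
      refine ⟨b, hb1, ?_⟩
      rw [not_eventually] at hcon
      have h2 := hcon.and_eventually (eventually_ge_atTop 1)
      refine h2.mono fun n hn => ?_
      have hn' : (0 : ℝ) < n := by exact_mod_cast hn.2
      have h3 := not_le.1 hn.1
      rw [lt_div_iff₀ hn'] at h3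
      nlinarith
    · exfalso
      -- good sets
      set G : ℕ → Set X := fun N => {x | ∃ n, 1 ≤ n ∧ n ≤ N ∧ a' * n ≤ L n x} with hG
      have hGm : ∀ N, MeasurableSet (G N) := by
        intro N
        have : G N = ⋃ n : ℕ, ⋃ _ : 1 ≤ n ∧ n ≤ N, {x | a' * n ≤ L n x} := by
          ext x
          simp only [hG, mem_setOf_eq, mem_iUnion, exists_prop]
          constructor
          · rintro ⟨n, h1, h2, h3⟩; exact ⟨n, ⟨h1, h2⟩, h3⟩
          · rintro ⟨n, ⟨h1, h2⟩, h3⟩; exact ⟨n, h1, h2, h3⟩
        rw [this]
        exact MeasurableSet.iUnion fun n => MeasurableSet.iUnion fun _ =>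
          measurableSet_le measurable_const (hL n)
      have hGmono : Monotone G := by
        intro N N' hN x hx
        obtain ⟨n, h1, h2, h3⟩ := hx
        exact ⟨n, h1, h2.trans hN, h3⟩
      have hAG : A ⊆ ⋃ N, G N := by
        rintro x ⟨b, hb, hfr⟩
        obtain ⟨n, hn1, hn2⟩ := (frequently_atTop.1 hfr) 1
        refine mem_iUnion.2 ⟨n, n, hn1, le_rfl, ?_⟩
        have : (0 : ℝ) ≤ n := Nat.cast_nonneg n
        nlinarith
      have hm1 : m (⋃ N, G N) = 1 := by
        refine le_antisymm prob_le_one ?_
        rw [ae_eq_univ] at h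
        calc 1 = m A := ((prob_compl_eq_zero_iff hAm).1 h).symm
          _ ≤ _ := measure_mono hAG
      have hlim : Tendsto (fun N => m.real (G N)) atTop (𝓝 1) := by
        have h1 := tendsto_measure_iUnion_atTop (μ := m) hGmono
        rw [hm1] at h1
        have h2 := (ENNReal.tendsto_toReal ENNReal.one_ne_top).comp h1
        exact h2
      have hkey : ∀ N, a' * m.real (G N) ≤ γ := by
        intro N
        classical
        have h1 : ∀ M : ℕ, a' * (M * m.real (G N)) ≤ (∫ x, L M x ∂m) + a' * N := by
          intro M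
          have h2 := cover h0 hs ha'0.le N (fun x => x ∈ G N) (fun x hx => hx) M
          have hmes : ∀ j, Measurable (fun x => if T^[j] x ∈ G N then (1 : ℝ) else 0) := by
            intro j
            exact Measurable.ite ((hT.measurable.iterate j) (hGm N)) measurable_const
              measurable_const
          have hii : ∀ j, Integrable (fun x => if T^[j] x ∈ G N then (1 : ℝ) else 0) m := by
            intro j
            refine Integrable.of_bound (hmes j).aestronglyMeasurable 1 (Eventually.of_forall
              fun x => ?_)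
            split_ifs <;> simp
          have hival : ∀ j, ∫ x, (if T^[j] x ∈ G N then (1 : ℝ) else 0) ∂m = m.real (G N) := by
            intro j
            have hmp := hT.toMeasurePreserving.iterate j
            have e1 : (fun x => if T^[j] x ∈ G N then (1 : ℝ) else 0) =
                (T^[j] ⁻¹' (G N)).indicator 1 := by
              ext x
              simp only [Set.indicator, mem_preimage, Pi.one_apply]
            rw [e1, integral_indicator_one ((hT.measurable.iterate j) (hGm N))]
            exact hmp.measureReal_preimage (hGm N).nullMeasurableSet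
          have h3 : ∫ x, a' * (∑ j ∈ Finset.range M, if T^[j] x ∈ G N then (1 : ℝ) else 0) ∂m
              = a' * (M * m.real (G N)) := by
            rw [integral_const_mul, integral_finset_sum _ (fun j _ => hii j)]
            simp only [hival]
            simp
          rw [← h3]
          calc _ ≤ ∫ x, (L M x + a' * N) ∂m := by
                refine integral_mono ?_ ((hint M).add (integrable_const _)) h2
                exact (integrable_finset_sum _ (fun j _ => hii j)).const_mul _
            _ = _ := by
              rw [integral_add (hint M) (integrable_const _)]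
              simp
        have h4 : Tendsto (fun M : ℕ => γ + a' * N / M) atTop (𝓝 (γ + 0)) :=
          tendsto_const_nhds.add (tendsto_const_div_atTop_nhds_zero_nat _)
        rw [add_zero] at h4
        refine ge_of_tendsto h4 ?_
        filter_upwards [eventually_ge_atTop 1] with M hM
        have hM' : (0 : ℝ) < M := by exact_mod_cast hM
        have h5 := h1 M
        have h6 := hEγ M
        rw [hE] at h6
        simp only at h6
        rw [div_le_iff₀ hM'] at h6
        have h7 : γ + a' * N / M = (γ * M + a' * N) / M := by field_simp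
        rw [h7, le_div_iff₀ hM']
        linarith
      have h5 : a' * 1 ≤ γ := le_of_tendsto (hlim.const_mul a') (Eventually.of_forall hkey)
      linarith
  -- conclusion
  have hlow' : ∀ᵐ x ∂m, ∀ k, 1 ≤ k → ∀ ε > 0, ∀ᶠ n : ℕ in atTop, E k - ε ≤ L n x / n := by
    rw [ae_all_iff]
    intro k
    by_cases hk : 1 ≤ k
    · filter_upwards [hlow k hk] with x hx _ using hx
    · exact Eventually.of_forall fun x h => absurd h hk
  have hup' : ∀ᵐ x ∂m, ∀ j : ℕ, ∀ᶠ n : ℕ in atTop, L n x / n ≤ γ + 1 / ((j : ℝ) + 1) := by
    rw [ae_all_iff]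
    intro j
    exact hup _ (by have : (0 : ℝ) < 1 / ((j : ℝ) + 1) := by positivity
                    linarith)
  filter_upwards [hlow', hup'] with x h1 h2
  rw [Metric.tendsto_atTop']
  intro ε hε
  obtain ⟨j, hj⟩ := exists_nat_one_div_lt hε
  obtain ⟨k, hk⟩ : ∃ k, 1 ≤ k ∧ γ - ε / 2 < E k := by
    obtain ⟨k, hk⟩ := exists_lt_of_lt_ciSup (show γ - ε / 2 < ⨆ k, E k by linarith)
    rcases Nat.eq_zero_or_pos k with rfl | hk'
    · refine ⟨1, le_rfl, ?_⟩
      have h3 : E 0 = 0 := by simp [hE]
      rw [h3] at hk
      refine hk.trans_le ?_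
      simp only [hE]
      exact div_nonneg (integral_nonneg (h0 1)) (by positivity)
    · exact ⟨k, hk', hk⟩
  obtain ⟨N1, hN1⟩ := eventually_atTop.1 (h1 k hk.1 (ε / 4) (by positivity))
  obtain ⟨N2, hN2⟩ := eventually_atTop.1 (h2 j)
  refine ⟨max N1 N2, fun n hn => ?_⟩
  have h3 := hN1 n ((le_max_left _ _).trans hn.le)
  have h4 := hN2 n ((le_max_right _ _).trans hn.le)
  rw [Real.dist_eq, abs_lt]
  constructor <;> linarith [hk.2]

end

end Pool.Agent.R975.King
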