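import Mathlib
import Pool.Agent.R975.King
import Pool.Agent.Y560.BE.Erg

/-! One-player percolation games with i.i.d. payoffs: words, superadditivity, almost sure limit. -/

set_option autoImplicit false

namespace Pool.Agent.R975.Perc

open MeasureTheory Filter Topology Set

variable {V A : Type} [AddCommGroup V]

/-- total payoff along a word of actions -/
def S (q : A → V) (x : V → A → unitInterval) : V → List A → ℝ
  | _, [] => 0
  | z, i :: w => (x z i : ℝ) + S q x (z + q i) w

/-- displacement -/
def disp (q : A → V) (w : List A) : V := (w.map q).sum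

@[simp] lemma disp_nil (q : A → V) : disp q [] = 0 := rfl

@[simp] lemma disp_cons (q : A → V) (i : A) (w : List A) : disp q (i :: w) = q i + disp q w := by
  simp [disp]

lemma S_nonneg (q : A → V) (x : V → A → unitInterval) (w : List A) :
    ∀ z, 0 ≤ S q x z w := by
  induction w with
  | nil => intro z; exact le_rfl
  | cons i w ih => intro z; exact add_nonneg (x z i).2.1 (ih _)

lemma S_le (q : A → V) (x : V → A → unitInterval) (w : List A) :
    ∀ z, S q x z w ≤ w.length := by
  induction w with
  | nil => intro z; simp [S]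
  | cons i w ih =>
    intro z
    have h1 := (x z i).2.2
    have h2 := ih (z + q i)
    simp only [S, List.length_cons]
    push_cast
    linarith

lemma S_append (q : A → V) (x : V → A → unitInterval) (u v : List A) :
    ∀ z, S q x z (u ++ v) = S q x z u + S q x (z + disp q u) v := by
  induction u with
  | nil => intro z; simp [S]
  | cons i u ih =>
    intro z
    simp only [List.cons_append, S, ih, disp_cons, add_assoc]

lemma S_shift (q : A → V) (x : V → A → unitInterval) (y : V) (w : List A) :
    ∀ z, S q (fun v => x (v + y)) z w = S q x (z + y) w := by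
  induction w with
  | nil => intro z; rfl
  | cons i w ih =>
    intro z
    simp only [S, ih]
    congr 2
    abel

lemma S_meas (q : A → V) (w : List A) :
    ∀ z, Measurable (fun x : V → A → unitInterval => S q x z w) := by
  induction w with
  | nil => intro z; exact measurable_const
  | cons i w ih =>
    intro z
    have h1 : Measurable (fun x : V → A → unitInterval => (x z i : ℝ)) :=
      measurable_subtype_coe.comp ((measurable_pi_apply i).comp (measurable_pi_apply z))
    exact h1.add (ih _)

section fin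

variable [Fintype A] [DecidableEq A] [Nonempty A]

/-- words with counts `k • c` -/
abbrev Wd (c : A → ℕ) (k : ℕ) : Type := {w : List A // ∀ i, w.count i = k * c i}

/-- words of length `n` -/
abbrev Ln (A : Type) (n : ℕ) : Type := {w : List A // w.length = n}

omit [DecidableEq A] [Nonempty A] in
instance finLn (n : ℕ) : Finite (Ln A n) := (List.finite_length_eq A n).to_subtype

omit [Fintype A] [DecidableEq A] in
instance neLn (n : ℕ) : Nonempty (Ln A n) :=
  ⟨⟨List.replicate n (Classical.arbitrary A), by simp⟩⟩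

omit [Nonempty A] in
lemma length_eq_sum (w : List A) : w.length = ∑ i, w.count i := by
  induction w with
  | nil => simp
  | cons a w ih =>
    simp only [List.length_cons, List.count_cons, Finset.sum_add_distrib, ih, beq_iff_eq]
    simp

omit [Nonempty A] in
lemma disp_eq_sum (q : A → V) (w : List A) : disp q w = ∑ i, w.count i • q i := by
  induction w with
  | nil => simp
  | cons a w ih =>
    simp only [disp_cons, List.count_cons, add_smul, Finset.sum_add_distrib, ih, beq_iff_eq]
    simp [ite_smul, add_comm]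

/-- drift -/
def drift (q : A → V) (c : A → ℕ) : V := ∑ i, c i • q i

/-- total count -/
def tot (c : A → ℕ) : ℕ := ∑ i, c i

omit [Nonempty A] in
lemma len_Wd (c : A → ℕ) (k : ℕ) (w : Wd c k) : w.1.length = k * tot c := by
  rw [length_eq_sum, tot, Finset.mul_sum]
  exact Finset.sum_congr rfl fun i _ => w.2 i

omit [Nonempty A] in
lemma disp_Wd (q : A → V) (c : A → ℕ) (k : ℕ) (w : Wd c k) : disp q w.1 = k • drift q c := by
  rw [disp_eq_sum, drift, Finset.smul_sum]
  exact Finset.sum_congr rfl fun i _ => by rw [w.2 i, mul_smul]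

omit [Nonempty A] in
instance finWd (c : A → ℕ) (k : ℕ) : Finite (Wd c k) :=
  Finite.of_injective (β := Ln A (k * tot c)) (fun w => ⟨w.1, len_Wd c k w⟩) (by
    intro a b h
    have := congrArg Subtype.val h
    exact Subtype.ext this)

omit [Nonempty A] in
lemma exists_counts (c : A → ℕ) : ∃ w : List A, ∀ i, w.count i = c i := by
  refine ⟨(∑ j, Multiset.replicate (c j) j : Multiset A).toList, fun i => ?_⟩
  rw [← Multiset.coe_count, Multiset.coe_toList, Multiset.count_sum']
  simp [Multiset.count_replicate]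

omit [Nonempty A] in
instance neWd (c : A → ℕ) (k : ℕ) : Nonempty (Wd c k) := by
  obtain ⟨w, hw⟩ := exists_counts (fun i => k * c i)
  exact ⟨⟨w, hw⟩⟩

/-- best payoff over words of counts `k • c` -/
noncomputable def L (q : A → V) (c : A → ℕ) (k : ℕ) (x : V → A → unitInterval) : ℝ :=
  ⨆ w : Wd c k, S q x 0 w.1

/-- best payoff over words of length `n` -/
noncomputable def VV (q : A → V) (n : ℕ) (x : V → A → unitInterval) (z : V) : ℝ :=
  ⨆ w : Ln A n, S q x z w.1

omit [Nonempty A] in
lemma bdd_Wd (q : A → V) (c : A → ℕ) (k : ℕ) (x : V → A → unitInterval) :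
    BddAbove (range fun w : Wd c k => S q x 0 w.1) := (finite_range _).bddAbove

omit [DecidableEq A] [Nonempty A] in
lemma bdd_Ln (q : A → V) (n : ℕ) (x : V → A → unitInterval) (z : V) :
    BddAbove (range fun w : Ln A n => S q x z w.1) := (finite_range _).bddAbove

omit [Nonempty A] in
lemma L_nonneg (q : A → V) (c : A → ℕ) (k : ℕ) (x : V → A → unitInterval) : 0 ≤ L q c k x :=
  Real.iSup_nonneg fun w => S_nonneg q x w.1 0

omit [Nonempty A] in
lemma L_le (q : A → V) (c : A → ℕ) (k : ℕ) (x : V → A → unitInterval) :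
    L q c k x ≤ tot c * k := by
  refine ciSup_le fun w => (S_le q x w.1 0).trans ?_
  rw [len_Wd c k w]
  push_cast
  linarith

omit [Nonempty A] in
lemma L_meas (q : A → V) (c : A → ℕ) (k : ℕ) : Measurable (L q c k) :=
  Measurable.iSup fun w => S_meas q w.1 0

omit [Nonempty A] in
lemma L_super (q : A → V) (c : A → ℕ) (k l : ℕ) (x : V → A → unitInterval) :
    L q c k x + L q c l (fun v => x (v + k • drift q c)) ≤ L q c (k + l) x := by
  have h1 : ∀ (u : Wd c k) (v : Wd c l), S q x 0 u.1 + S q (fun v => x (v + k • drift q c)) 0 v.1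
      ≤ L q c (k + l) x := by
    intro u v
    have e : S q x 0 (u.1 ++ v.1) = S q x 0 u.1 + S q (fun v => x (v + k • drift q c)) 0 v.1 := by
      rw [S_append, S_shift, disp_Wd]
    rw [← e]
    exact le_ciSup (bdd_Wd q c (k + l) x) (⟨u.1 ++ v.1, fun i => by
      rw [List.count_append, u.2, v.2]; ring⟩ : Wd c (k + l))
  have h2 : L q c k x ≤ L q c (k + l) x - L q c l (fun v => x (v + k • drift q c)) := by
    refine ciSup_le fun u => ?_
    have h3 : L q c l (fun v => x (v + k • drift q c)) ≤ L q c (k + l) x - S q x 0 u.1 :=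
      ciSup_le fun v => by linarith [h1 u v]
    linarith
  linarith

omit [DecidableEq A] in
lemma VV_nonneg (q : A → V) (n : ℕ) (x : V → A → unitInterval) (z : V) : 0 ≤ VV q n x z :=
  Real.iSup_nonneg fun w => S_nonneg q x w.1 z

lemma L_le_VV (q : A → V) (c : A → ℕ) (k n : ℕ) (hk : k * tot c ≤ n)
    (x : V → A → unitInterval) : L q c k x ≤ VV q n x 0 := by
  refine ciSup_le fun w => ?_
  have h1 : S q x 0 w.1 ≤ S q x 0 (w.1 ++ List.replicate (n - k * tot c)
      (Classical.arbitrary A)) := by
    rw [S_append]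
    linarith [S_nonneg q x (List.replicate (n - k * tot c) (Classical.arbitrary A))
      (0 + disp q w.1)]
  refine h1.trans (le_ciSup (bdd_Ln q n x 0) (⟨_, ?_⟩ : Ln A n))
  rw [List.length_append, len_Wd c k w, List.length_replicate]
  omega

omit [Nonempty A] in
/-- a word with counts below `k c` has payoff at most `L k` -/
lemma S_le_L (q : A → V) (c : A → ℕ) (k : ℕ) (x : V → A → unitInterval) (w : List A)
    (h : ∀ i, w.count i ≤ k * c i) : S q x 0 w ≤ L q c k x := by
  obtain ⟨u, hu⟩ := exists_counts (fun i => k * c i - w.count i)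
  have h1 : S q x 0 w ≤ S q x 0 (w ++ u) := by
    rw [S_append]
    linarith [S_nonneg q x u (0 + disp q w)]
  refine h1.trans (le_ciSup (bdd_Wd q c k x) (⟨w ++ u, fun i => ?_⟩ : Wd c k))
  rw [List.count_append, hu]
  have := h i
  omega

/-- the net -/
lemma net (q : A → V) (i0 : A) (hi0 : q i0 ≠ 0) (N : ℕ) (hN : 1 ≤ N) (w : List A) :
    ∃ c : A → ℕ, (∀ i, c i ≤ N + 2) ∧ drift q c ≠ 0 ∧ tot c ≤ N + Fintype.card A + 1 ∧
      1 ≤ tot c ∧ ∀ i, w.count i ≤ (w.length / N + 1) * c i := by
  set n := w.length with hn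
  set c0 : A → ℕ := fun i => N * w.count i / n + 1 with hc0
  have hcn : ∀ i, w.count i ≤ n := fun i => List.count_le_length
  have h1 : ∀ i, w.count i ≤ (n / N + 1) * c0 i := by
    intro i
    rcases Nat.eq_zero_or_pos n with h0 | h0
    · have := hcn i
      have h2 : w.count i = 0 := by omega
      rw [h2]; exact Nat.zero_le _
    · have h2 : n < (n / N + 1) * N := by
        have := Nat.lt_div_mul_add (a := n) (b := N) (by omega)
        nlinarith
      have h3 : N * w.count i < (N * w.count i / n + 1) * n := by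
        have := Nat.lt_div_mul_add (a := N * w.count i) (b := n) (by omega)
        nlinarith
      by_contra hcon
      push Not at hcon
      simp only [hc0] at hcon
      set a := n / N + 1
      set b := N * w.count i / n + 1
      set y := w.count i
      -- n < a N, N y < b n, a b < y
      have ha : 0 < a := Nat.succ_pos _
      have hb : 0 < b := Nat.succ_pos _
      have h4 : N * (a * b) ≤ N * y := Nat.mul_le_mul_left _ hcon.le
      have h5 : b * n ≤ b * (a * N) := Nat.mul_le_mul_left _ h2.le
      have h6 : b * (a * N) = N * (a * b) := by ring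
      omega
  have h2 : ∀ i, c0 i ≤ N + 1 := by
    intro i
    simp only [hc0]
    rcases Nat.eq_zero_or_pos n with h0 | h0
    · simp [h0]
    · have : N * w.count i / n ≤ N := by
        rw [Nat.div_le_iff_le_mul_add_pred h0]
        have := Nat.mul_le_mul_left N (hcn i)
        nlinarith
      omega
  have h3 : tot c0 ≤ N + Fintype.card A := by
    rw [tot]
    simp only [hc0]
    rw [Finset.sum_add_distrib]
    simp only [Finset.sum_const, Finset.card_univ, smul_eq_mul, mul_one]
    rcases Nat.eq_zero_or_pos n with h0 | h0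
    · simp [h0]
    · have h4 : (∑ i, N * w.count i / n) ≤ N := by
        have h5 : (∑ i, N * w.count i / n) * n ≤ N * n := by
          rw [Finset.sum_mul]
          calc ∑ i, N * w.count i / n * n ≤ ∑ i, N * w.count i :=
                Finset.sum_le_sum fun i _ => Nat.div_mul_le_self _ _
            _ = N * n := by rw [← Finset.mul_sum, ← length_eq_sum]
        exact Nat.le_of_mul_le_mul_right h5 h0
      omega
  have h4 : 1 ≤ tot c0 := by
    rw [tot]
    calc 1 ≤ c0 i0 := Nat.succ_le_succ (Nat.zero_le _)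
      _ ≤ _ := Finset.single_le_sum (fun i _ => Nat.zero_le _) (Finset.mem_univ i0)
  by_cases hd : drift q c0 = 0
  · refine ⟨fun i => c0 i + if i = i0 then 1 else 0, ?_, ?_, ?_, ?_, ?_⟩
    · intro i
      have := h2 i
      simp only
      split_ifs <;> omega
    · have e : drift q (fun i => c0 i + if i = i0 then 1 else 0) = drift q c0 + q i0 := by
        simp only [drift, add_smul, Finset.sum_add_distrib]
        simp [ite_smul]
      rw [e, hd, zero_add]
      exact hi0
    · have e : tot (fun i => c0 i + if i = i0 then 1 else 0) = tot c0 + 1 := by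
        simp only [tot, Finset.sum_add_distrib]
        simp
      rw [e]; omega
    · have e : tot (fun i => c0 i + if i = i0 then 1 else 0) = tot c0 + 1 := by
        simp only [tot, Finset.sum_add_distrib]
        simp
      rw [e]; omega
    · intro i
      refine (h1 i).trans (Nat.mul_le_mul_left _ ?_)
      simp
  · exact ⟨c0, fun i => (h2 i).trans (by omega), hd, by omega, h4, h1⟩

/-- Deterministic part: from the limits along rational directions to the limit of the value. -/
theorem det (q : A → V) (i0 : A) (hi0 : q i0 ≠ 0) (x : V → A → unitInterval)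
    (lam : (A → ℕ) → ℝ)
    (hlam : ∀ c, drift q c ≠ 0 → Tendsto (fun k : ℕ => L q c k x / k) atTop (𝓝 (lam c))) :
    Tendsto (fun n : ℕ => VV q n x 0 / n) atTop
      (𝓝 (⨆ c : {c : A → ℕ // drift q c ≠ 0}, lam c / tot c.1)) := by
  have htot : ∀ c : A → ℕ, drift q c ≠ 0 → 1 ≤ tot c := by
    intro c hc
    by_contra h
    have h0 : tot c = 0 := by omega
    have h1 : ∀ i, c i = 0 := by
      intro i
      have := Finset.single_le_sum (f := c) (fun i _ => Nat.zero_le _) (Finset.mem_univ i)
      rw [tot] at h0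
      omega
    apply hc
    simp [drift, h1]
  have hle : ∀ c : A → ℕ, drift q c ≠ 0 → lam c ≤ tot c := by
    intro c hc
    refine le_of_tendsto (hlam c hc) ?_
    filter_upwards [eventually_ge_atTop 1] with k hk
    have hk' : (0 : ℝ) < k := by exact_mod_cast hk
    rw [div_le_iff₀ hk']
    exact L_le q c k x
  have hge : ∀ c : A → ℕ, drift q c ≠ 0 → 0 ≤ lam c := by
    intro c hc
    refine ge_of_tendsto (hlam c hc) ?_
    exact Eventually.of_forall fun k => div_nonneg (L_nonneg q c k x) (Nat.cast_nonneg k)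
  have hbdd : BddAbove (range fun c : {c : A → ℕ // drift q c ≠ 0} => lam c / tot c.1) := by
    refine ⟨1, ?_⟩
    rintro _ ⟨c, rfl⟩
    have h1 : (0 : ℝ) < tot c.1 := by exact_mod_cast htot c.1 c.2
    simp only
    rw [div_le_one h1]
    exact hle c.1 c.2
  set γ := ⨆ c : {c : A → ℕ // drift q c ≠ 0}, lam c / tot c.1 with hγ
  have hγle : ∀ c : A → ℕ, drift q c ≠ 0 → lam c ≤ γ * tot c := by
    intro c hc
    have h1 : (0 : ℝ) < tot c := by exact_mod_cast htot c hc
    rw [← div_le_iff₀ h1]
    exact le_ciSup hbdd (⟨c, hc⟩ : {c : A → ℕ // drift q c ≠ 0})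
  have hne : Nonempty {c : A → ℕ // drift q c ≠ 0} := by
    refine ⟨⟨fun i => if i = i0 then 1 else 0, ?_⟩⟩
    simp only [drift, ite_smul, one_smul, zero_smul]
    simpa using hi0
  have hγ0 : 0 ≤ γ := by
    obtain ⟨c⟩ := hne
    refine le_trans ?_ (le_ciSup hbdd c)
    exact div_nonneg (hge c.1 c.2) (Nat.cast_nonneg _)
  -- upper bound
  have hup : ∀ N : ℕ, 1 ≤ N → ∀ᶠ n : ℕ in atTop,
      VV q n x 0 ≤ (n / N + 1) * (γ * (N + Fintype.card A + 1) + 1) := by
    intro N hN
    have hfin : {c : A → ℕ | (∀ i, c i ≤ N + 2) ∧ drift q c ≠ 0}.Finite := by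
      refine Set.Finite.subset (Set.finite_Icc (0 : A → ℕ) (fun _ => N + 2)) ?_
      rintro c ⟨hc, -⟩
      exact ⟨fun i => Nat.zero_le _, fun i => hc i⟩
    have h1 : ∀ c ∈ {c : A → ℕ | (∀ i, c i ≤ N + 2) ∧ drift q c ≠ 0},
        ∀ᶠ k : ℕ in atTop, L q c k x ≤ k * (lam c + 1) := by
      rintro c ⟨-, hc⟩
      filter_upwards [(hlam c hc).eventually (eventually_lt_nhds (lt_add_one (lam c))),
        eventually_ge_atTop 1] with k hk hk1
      have hk' : (0 : ℝ) < k := by exact_mod_cast hk1
      rw [div_lt_iff₀ hk'] at hk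
      linarith
    have h2 := (eventually_all_finite hfin).2 h1
    have hdiv : Tendsto (fun n : ℕ => n / N + 1) atTop atTop :=
      (tendsto_add_atTop_nat 1).comp (Nat.tendsto_div_const_atTop (by omega))
    filter_upwards [hdiv.eventually h2] with n hn
    refine ciSup_le fun w => ?_
    obtain ⟨c, hc1, hc2, hc3, hc4, hc5⟩ := net q i0 hi0 N hN w.1
    rw [w.2] at hc5
    have h3 := S_le_L q c (n / N + 1) x w.1 hc5
    have h4 := hn c ⟨hc1, hc2⟩
    have h5 := hγle c hc2
    have hN' : (0 : ℝ) < N := by exact_mod_cast hN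
    have h6 : (tot c : ℝ) ≤ N + Fintype.card A + 1 := by exact_mod_cast hc3
    have h7 : ((n / N + 1 : ℕ) : ℝ) ≤ n / N + 1 := by
      push_cast
      have : ((n / N : ℕ) : ℝ) ≤ n / N := Nat.cast_div_le
      linarith
    have h8 : lam c + 1 ≤ γ * (N + Fintype.card A + 1) + 1 := by
      have := mul_le_mul_of_nonneg_left h6 hγ0
      linarith
    have h9 : 0 ≤ lam c + 1 := by linarith [hge c hc2]
    calc S q x 0 w.1 ≤ _ := h3
      _ ≤ ((n / N + 1 : ℕ) : ℝ) * (lam c + 1) := h4
      _ ≤ ((n : ℝ) / N + 1) * (lam c + 1) := mul_le_mul_of_nonneg_right h7 h9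
      _ ≤ _ := mul_le_mul_of_nonneg_left h8 (by positivity)
  -- lower bound
  have hlow : ∀ c : A → ℕ, drift q c ≠ 0 → ∀ ε > 0, ∀ᶠ n : ℕ in atTop,
      lam c / tot c - ε < VV q n x 0 / n := by
    intro c hc ε hε
    have ht := htot c hc
    have ht' : (0 : ℝ) < tot c := by exact_mod_cast ht
    have hdiv : Tendsto (fun n : ℕ => n / tot c) atTop atTop :=
      Nat.tendsto_div_const_atTop (by omega)
    have h1 := (hlam c hc).comp hdiv
    have h2 : Tendsto (fun n : ℕ => ((n / tot c : ℕ) : ℝ) / n) atTop (𝓝 (1 / tot c)) := by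
      have h3 : Tendsto (fun n : ℕ => 1 / (tot c : ℝ) - 1 / n) atTop (𝓝 (1 / tot c - 0)) :=
        tendsto_const_nhds.sub tendsto_one_div_atTop_nhds_zero_nat
      rw [sub_zero] at h3
      refine tendsto_of_tendsto_of_tendsto_of_le_of_le' h3 tendsto_const_nhds ?_ ?_
      · filter_upwards [eventually_ge_atTop 1] with n hn
        have hn' : (0 : ℝ) < n := by exact_mod_cast hn
        have h4 : n < (n / tot c + 1) * tot c := by
          have := Nat.lt_div_mul_add (a := n) (b := tot c) (by omega)
          nlinarith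
        have h5 : (n : ℝ) < ((n / tot c : ℕ) + 1) * tot c := by exact_mod_cast h4
        rw [le_div_iff₀ hn', sub_mul, one_div, one_div, inv_mul_cancel₀ hn'.ne']
        rw [← div_eq_inv_mul, sub_le_iff_le_add, div_le_iff₀ ht']
        exact h5.le
      · filter_upwards [eventually_ge_atTop 1] with n hn
        have hn' : (0 : ℝ) < n := by exact_mod_cast hn
        have h4 : n / tot c * tot c ≤ n := Nat.div_mul_le_self n (tot c)
        have h5 : ((n / tot c : ℕ) : ℝ) * tot c ≤ n := by exact_mod_cast h4
        rw [div_le_div_iff₀ hn' ht']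
        linarith
    have h6 := h2.mul h1
    have h7 : 1 / (tot c : ℝ) * lam c = lam c / tot c := by ring
    rw [h7] at h6
    have h8 := h6.eventually (eventually_gt_nhds
      (show lam c / tot c - ε < lam c / tot c by linarith))
    filter_upwards [h8, eventually_ge_atTop (tot c)] with n hn hnk
    refine hn.trans_le ?_
    have hn' : (0 : ℝ) < n := by exact_mod_cast (lt_of_lt_of_le (by omega) hnk)
    have hq : 0 < n / tot c := Nat.div_pos hnk (by omega)
    have hq' : (0 : ℝ) < ((n / tot c : ℕ) : ℝ) := by exact_mod_cast hq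
    simp only [Function.comp]
    rw [div_mul_div_comm, mul_comm ((n / tot c : ℕ) : ℝ), mul_div_mul_right _ _ hq'.ne']
    refine div_le_div_of_nonneg_right ?_ hn'.le
    exact L_le_VV q c _ n (Nat.div_mul_le_self n (tot c)) x
  rw [Metric.tendsto_atTop']
  intro ε hε
  -- choose N
  obtain ⟨N, hN⟩ := exists_nat_gt ((γ * (Fintype.card A + 1) + 1) / (ε / 2))
  have hK0 : 0 ≤ γ * (Fintype.card A + 1) + 1 := by positivity
  have hN0 : (0 : ℝ) < N := lt_of_le_of_lt (by positivity) hN
  have hN1 : 1 ≤ N := by exact_mod_cast hN0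
  have h1 := hup N hN1
  obtain ⟨c, hc⟩ := exists_lt_of_lt_ciSup (show γ - ε / 2 < ⨆ c : {c : A → ℕ // drift q c ≠ 0},
    lam c / tot c.1 by linarith)
  have h2 := hlow c.1 c.2 (ε / 2) (by positivity)
  have h3 : Tendsto (fun n : ℕ => (γ * (N + Fintype.card A + 1) + 1) / (n : ℝ)) atTop (𝓝 0) :=
    tendsto_const_div_atTop_nhds_zero_nat _
  have h4 := h3.eventually (eventually_lt_nhds (show (0 : ℝ) < ε / 2 by positivity))
  obtain ⟨N1, hN1'⟩ := eventually_atTop.1 ((h1.and h2).and (h4.and (eventually_ge_atTop 1)))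
  refine ⟨N1, fun n hn => ?_⟩
  obtain ⟨⟨h5, h6⟩, h7, h8⟩ := hN1' n hn.le
  have hn' : (0 : ℝ) < n := by exact_mod_cast h8
  rw [Real.dist_eq, abs_lt]
  constructor
  · linarith
  · have h9 : VV q n x 0 / n ≤ ((n : ℝ) / N + 1) * (γ * (N + Fintype.card A + 1) + 1) / n :=
      div_le_div_of_nonneg_right h5 hn'.le
    have h10 : ((n : ℝ) / N + 1) * (γ * (N + Fintype.card A + 1) + 1) / n
        = γ + (γ * (Fintype.card A + 1) + 1) / N + (γ * (N + Fintype.card A + 1) + 1) / n := by
      field_simp
      ring
    rw [div_lt_iff₀ (by positivity)] at hN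
    have h11 : (γ * (Fintype.card A + 1) + 1) / N < ε / 2 := by
      rw [div_lt_iff₀ hN0]
      linarith
    linarith

omit [DecidableEq A] [Nonempty A] in
lemma VV_shift (q : A → V) (n : ℕ) (x : V → A → unitInterval) (z : V) :
    VV q n (fun v => x (v + z)) 0 = VV q n x z := by
  unfold VV
  simp only [S_shift, zero_add]

end fin

section prob

variable {d : ℕ}

lemma shift_iter {Z : Type} (y : Fin d → ℤ) (k : ℕ) (x : (Fin d → ℤ) → Z) :
    (fun (x : (Fin d → ℤ) → Z) (v : Fin d → ℤ) => x (v + y))^[k] x = fun v => x (v + k • y) := by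
  induction k generalizing x with
  | zero => simp
  | succ k ih =>
    rw [Function.iterate_succ_apply, ih]
    funext v
    congr 1
    rw [succ_nsmul, add_assoc]

lemma mp_shift {Z : Type} [MeasurableSpace Z] (ν : Measure Z) [IsProbabilityMeasure ν]
    (y : Fin d → ℤ) :
    MeasurePreserving (fun (x : (Fin d → ℤ) → Z) (v : Fin d → ℤ) => x (v + y))
      (Measure.infinitePi fun _ : Fin d → ℤ => ν) (Measure.infinitePi fun _ : Fin d → ℤ => ν) :=
  Y560.BE.mp_cm ν (Equiv.addRight y)

lemma erg_shift {Z : Type} [MeasurableSpace Z] (ν : Measure Z) [IsProbabilityMeasure ν]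
    (y : Fin d → ℤ) (hy : y ≠ 0) :
    Ergodic (fun (x : (Fin d → ℤ) → Z) (v : Fin d → ℤ) => x (v + y))
      (Measure.infinitePi fun _ : Fin d → ℤ => ν) := by
  classical
  refine Y560.BE.erg_cm ν (Equiv.addRight y) (Y560.BE.move_off _ fun i n h => ?_)
  have h1 : ∀ m : ℕ, (Equiv.addRight y)^[m] i = i + m • y := by
    intro m
    induction m with
    | zero => simp
    | succ m ih =>
      rw [Function.iterate_succ_apply', ih]
      show i + m • y + y = _
      rw [succ_nsmul, add_assoc]
  rw [h1] at h
  have h2 : (n + 1) • y = 0 := by simpa using h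
  rcases smul_eq_zero.1 h2 with h3 | h3
  · omega
  · exact hy h3

theorem as_limit [Fintype A] [DecidableEq A] [Nonempty A] (ν : Measure (A → unitInterval))
    [IsProbabilityMeasure ν] (q : A → Fin d → ℤ) (i0 : A) (hi0 : q i0 ≠ 0) :
    ∃ γ : ℝ, ∀ z, ∀ᵐ x ∂(Measure.infinitePi fun _ : Fin d → ℤ => ν),
      Tendsto (fun n : ℕ => VV q n x z / n) atTop (𝓝 γ) := by
  have hk : ∀ c : A → ℕ, drift q c ≠ 0 → ∃ l : ℝ,
      ∀ᵐ x ∂(Measure.infinitePi fun _ : Fin d → ℤ => ν),
        Tendsto (fun k : ℕ => L q c k x / k) atTop (𝓝 l) := by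
    intro c hc
    refine King.kingman (T := fun (x : (Fin d → ℤ) → A → unitInterval) (v : Fin d → ℤ) =>
      x (v + drift q c)) (B := tot c) (erg_shift ν _ hc) ?_ (L_meas q c) (fun n x => L_nonneg q c n x)
      (fun n x => L_le q c n x) ?_
    · intro k hk
      have e : (fun (x : (Fin d → ℤ) → A → unitInterval) (v : Fin d → ℤ) =>
          x (v + drift q c))^[k] = fun x v => x (v + k • drift q c) := by
        funext x
        exact shift_iter _ k x
      rw [e]
      refine erg_shift ν _ ?_
      intro h
      rcases smul_eq_zero.1 h with h3 | h3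
      · omega
      · exact hc h3
    · intro k l x
      rw [shift_iter]
      exact L_super q c k l x
  choose! lam hlam using hk
  have hall : ∀ᵐ x ∂(Measure.infinitePi fun _ : Fin d → ℤ => ν), ∀ c : A → ℕ, drift q c ≠ 0 →
      Tendsto (fun k : ℕ => L q c k x / k) atTop (𝓝 (lam c)) := by
    rw [ae_all_iff]
    intro c
    by_cases hc : drift q c = 0
    · exact Eventually.of_forall fun x h => absurd hc h
    · filter_upwards [hlam c hc] with x hx _ using hx
  have h0 : ∀ᵐ x ∂(Measure.infinitePi fun _ : Fin d → ℤ => ν),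
      Tendsto (fun n : ℕ => VV q n x 0 / n) atTop
        (𝓝 (⨆ c : {c : A → ℕ // drift q c ≠ 0}, lam c / tot c.1)) := by
    filter_upwards [hall] with x hx
    exact det q i0 hi0 x lam hx
  refine ⟨⨆ c : {c : A → ℕ // drift q c ≠ 0}, lam c / tot c.1, fun z => ?_⟩
  have h1 := (mp_shift ν z).quasiMeasurePreserving.ae h0
  filter_upwards [h1] with x hx
  simpa only [VV_shift] using hx

end prob

end Pool.Agent.R975.Perc
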